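import Pool.Agent.Helper807.BS.LEngine2
import Pool.Agent.Helper807.BS.LSeq1
import Pool.Agent.Helper41.BS.ExistBM

set_option autoImplicit false

/-!
# Non-uniqueness for the indefinite quadratic BSDE with generator `|z¹|² - |z²|²`

For every probability space with a two-dimensional Brownian motion and every `T > 0` there are a
terminal value `ξ` with all exponential moments and two solutions of the BSDE with generator
`|z¹|² - |z²|²` and terminal value `ξ` which differ at time `0`, although `exp (μ |Y|)` is of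
class (D) for every `μ > 0` for both of them. So uniqueness fails in this class.

Idea: cut `[0,T)` into intervals accumulating at `T`. On the intervals with even number only `B¹`
is used and `exp (2 Y)` is a martingale, on those with odd number only `B²` is used and
`exp (-2 Y)` is a martingale. At the end of each interval, according to the sign of the increment
of the Brownian motion, either `Y` is frozen for ever (at a value which depends on the number of
the interval only) or the game goes on; the game lives through `n` intervals with probability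
`2 ^ (-n)`. The frozen values form the terminal value `ξ`. They can be chosen so that two different
sequences of values of the surviving path are compatible with them, both of logarithmic growth.
-/

namespace Pool.Agent.Results.MP_a80562_pr.NonUniqueness

open MeasureTheory ProbabilityTheory Set Filter Pool.Agent.Helper807.BS
open scoped NNReal ENNReal Topology

universe u

theorem main : 
    ∀ (Ω : Type u) (_ : MeasurableSpace Ω) (P : Measure Ω) (_ : IsProbabilityMeasure P)
      (B : Fin 2 → ℝ≥0 → Ω → ℝ), IsBM2 B P → ∀ T : ℝ, 0 < T →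
      ∃ (ξ : Ω → ℝ) (Y Y' : ℝ → Ω → ℝ) (Z Z' : Fin 2 → ℝ → Ω → ℝ),
        Measurable[Fil B P T, borel ℝ] ξ ∧
        (∀ μ : ℝ, 0 < μ → Integrable (fun ω => Real.exp (μ * |ξ ω|)) P) ∧
        IsSol T P B (fun z => |z 0| ^ 2 - |z 1| ^ 2) ξ Y Z ∧
        IsSol T P B (fun z => |z 0| ^ 2 - |z 1| ^ 2) ξ Y' Z' ∧
        (∀ μ : ℝ, 0 < μ → ClassD T P (Fil B P) (fun t ω => Real.exp (μ * |Y t ω|))) ∧
        (∀ μ : ℝ, 0 < μ → ClassD T P (Fil B P) (fun t ω => Real.exp (μ * |Y' t ω|))) ∧
        ∀ ω, Y 0 ω ≠ Y' 0 ω := by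
  intro Ω _ P _ B hB T hT
  obtain ⟨idx, v, y, y', h0, h1, h2, h3, h4⟩ := seq_indefinite
  obtain ⟨ξ, hξ, H⟩ := engine P B hB T hT idx (![2, -2] : Fin 2 → ℝ) v
  obtain ⟨Y, Z, hs, hY0, hD⟩ := H y h1
  obtain ⟨Y', Z', hs', hY0', hD'⟩ := H y' h2
  have hg : (fun z : Fin 2 → ℝ => ∑ i, (![2, -2] : Fin 2 → ℝ) i / 2 * (z i) ^ 2) =
      fun z => |z 0| ^ 2 - |z 1| ^ 2 := by
    funext z
    simp [Fin.sum_univ_two]
    ring
  rw [hg] at hs hs'
  exact ⟨ξ, Y, Y', Z, Z', hξ, fun μ hμ => (hD μ hμ (h3 μ hμ)).2, hs, hs',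
    fun μ hμ => (hD μ hμ (h3 μ hμ)).1, fun μ hμ => (hD' μ hμ (h4 μ hμ)).1,
    fun ω => by rw [hY0, hY0']; exact h0⟩

/-- Uniqueness fails for the BSDE with generator `|z¹|² - |z²|²`, on every probability space with
a two-dimensional Brownian motion (and a complete such space exists). -/
theorem result :
    (∃ (Ω : Type) (_ : MeasurableSpace Ω) (P : Measure Ω), IsProbabilityMeasure P ∧
      P.IsComplete ∧ ∃ B : Fin 2 → ℝ≥0 → Ω → ℝ, IsBM2 B P) ∧
    ∀ (Ω : Type u) (_ : MeasurableSpace Ω) (P : Measure Ω) (_ : IsProbabilityMeasure P)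
      (B : Fin 2 → ℝ≥0 → Ω → ℝ), IsBM2 B P → ∀ T : ℝ, 0 < T →
      ∃ (ξ : Ω → ℝ) (Y Y' : ℝ → Ω → ℝ) (Z Z' : Fin 2 → ℝ → Ω → ℝ),
        Measurable[Fil B P T, borel ℝ] ξ ∧
        (∀ μ : ℝ, 0 < μ → Integrable (fun ω => Real.exp (μ * |ξ ω|)) P) ∧
        IsSol T P B (fun z => |z 0| ^ 2 - |z 1| ^ 2) ξ Y Z ∧
        IsSol T P B (fun z => |z 0| ^ 2 - |z 1| ^ 2) ξ Y' Z' ∧
        (∀ μ : ℝ, 0 < μ → ClassD T P (Fil B P) (fun t ω => Real.exp (μ * |Y t ω|))) ∧
        (∀ μ : ℝ, 0 < μ → ClassD T P (Fil B P) (fun t ω => Real.exp (μ * |Y' t ω|))) ∧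
        ∀ ω, Y 0 ω ≠ Y' 0 ω :=
  ⟨Pool.Agent.Helper41.BS.exists_bm2, main⟩

end Pool.Agent.Results.MP_a80562_pr.NonUniqueness
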